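import Pool.Agent.Q68.OV.Reg

/-!
# The `ℓ`-adic regulator of one variety and finitely many cubics `T(x, y, z) = 1`

Let `X` be **one** smooth projective variety over a number field `k`, `S` the scheme `X` considered as a
scheme over `ℚ`, and `i, j` **one** pair of integers. The question Q1 for `X`, `i`, `j` and the prime `ℓ` is
whether the regulator
`r_ℓ : H_M^i(X, ℚ(j))_hom ⊗ ℚ_ℓ → H^1_st(G_k, H^{i-1}(X̄, ℚ_ℓ(j))) = H^1_st(G_ℚ, H^{i-1}(S̄, ℚ_ℓ(j)))` is an
isomorphism (`Iso`). Put `q = 2 j - i`.

For a smooth projective scheme `Y` over `ℚ` let `M^m(Y) = H_M^{2m-q}(Y, ℚ(m))_hom ⊗ ℚ_ℓ` and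
`D^m(Y) = H^1_st(G_ℚ, H^{2m-q-1}(Ȳ, ℚ_ℓ(m)))`, with the regulator `r : M^m(Y) → D^m(Y)`. The cycles `c` on
`S × Y` of the codimension `m - j + dim S` operate by `c_* : M^j(S) → M^m(Y)` and
`c_* : D^j(S) → D^m(Y)`. Let `A^m(Y) ⊆ D^m(Y)` be the image of `r`, and `B^m(Y) = B_1^m(Y) ⊕ B_2^m(Y)`,
where `B_1^m(Y) ⊆ D^m(Y)` is the sum of `A^m(Y)` and of the images `c_* D^j(S)`, and `B_2^m(Y) ⊆ M^m(Y)` the
sum of the images `c_* N` of the kernel `N` of the regulator for `S`, for all cycles `c` as above. They are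
additive functors of the Chow motive of `Y`, and the map `A^m(Y) → B^m(Y)` (the inclusion in `B_1^m(Y)`) is
bijective if and only if `c_* N = 0` and `c_* D^j(S) ⊆ A^m(Y)` for all `c` (`RegStable`). For a separated
scheme `Z` of finite type over `ℚ` let `W(Z)` be its weight complex (Gillet, Soulé; `W(Z) = h(Z)` for smooth
projective `Z`), and put `A^{m,c}(Z) = H^c(A^m(W(Z)))`, `B^{m,c}(Z) = H^c(B^m(W(Z)))`. `At C m Z` says that
the maps `A^{m,c}(Z) → B^{m,c}(Z)` are isomorphisms for this `m` and all `c`, `BijAll C Z` that they are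
isomorphisms for all `m` and `c`.

**Theorem.** Let the dimension of `S` be at most `n`. There are finite lists `L`, `L'` of trilinear forms
over `ℚ` and a finite list `G` of tripartite hypergraphs, which depend only on `S`, `n` and `j` (not on `ℓ`
or `i`), with the following properties.

(1) Each form in `L` has at least three variables in each of its three blocks, and at most `n + 2` variables
in one of them. The question has a positive answer for `X`, `i`, `j`, `ℓ` if and only if the maps
`A^{m,c}(Z) → B^{m,c}(Z)` are isomorphisms, for all `m` and `c`, for the finitely many smooth affine cubic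
hypersurfaces `Z : T(x, y, z) = 1`, `T` in `L`. If it has, they are isomorphisms for all `T` over `ℚ`.

(2) It has if and only if, for the finitely many hypersurfaces `T = 1`, `T` in `L'`, and the **one** index
`m = j + a - 1`, `a` the number of the variables `x_i`, the maps are isomorphisms for all `c`.

(3) It has if and only if the maps are isomorphisms for the finitely many hypersurfaces
`∑_{(i, j, l) ∈ H} x_i y_j z_l = 1`, `H` in `G`.

(4) The maps are isomorphisms for all forms with a block of at most two variables (`zero`: the case of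
dimension zero is known by theorems of Borel and Soulé and by Kummer theory).

The corresponding statements for all varieties at once are results of helper221 and helper49 of this team
(`HypergraphRegulators`, `WeightByWeight`); here there is one variety, and finitely many cubics for all `ℓ`.
-/

set_option autoImplicit false

open CategoryTheory CategoryTheory.Limits AlgebraicGeometry Pool.Agent.Y116.UV Pool.Agent.Z125.UN
  Pool.Agent.Q193.LT Pool.Agent.Q49.WU Pool.Agent.Q68.OV

universe w u

namespace Pool.Agent.Results.MP_76188c_nt.FinitelyManyCubics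

/-- A smooth projective variety over a number field, as a scheme `S` over `ℚ`, and the regulators: `M m Y`
and `D m Y` are `H_M^{2m-q}(Y, ℚ(m))_hom ⊗ ℚ_ℓ` and `H^1_st(G_ℚ, H^{2m-q-1}(Ȳ, ℚ_ℓ(m)))`, `reg` is the
regulator, `Cyc m Y` the type of the cycles of codimension `m - j + dim S` on `S × Y`. -/
abbrev VarietyData (ℓ : ℕ) [Fact ℓ.Prime] (S : Sch ℚ) (j : ℤ) := RegData.{w, 0, u} ℚ ℚ_[ℓ] S j

/-- The maps are isomorphisms for the index `m`. -/
def At {ℓ : ℕ} [Fact ℓ.Prime] (C : PairData.{w} ℚ (ℤ × ℤ) ℚ_[ℓ]) (m : ℤ) (Z : Sch ℚ) : Prop :=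
  BijAt C Prod.fst m Z

/-- **The `ℓ`-adic regulator of one variety and finitely many cubics.** See the explanations above. -/
theorem result {S : Sch ℚ} (hS : SmoothProj S) {n : ℕ} (hn : topologicalKrullDim S.left ≤ n) (j : ℤ) :
    ∃ (L L' : List (Form ℚ)) (G : List Graph), (∀ t ∈ L, t.Block (n + 2) ∧ ¬ t.Block 2) ∧
      ∀ (ℓ : ℕ) [Fact ℓ.Prime] (D : VarietyData.{w, u} ℓ S j) (C : PairData.{w} ℚ (ℤ × ℤ) ℚ_[ℓ]),
        IsReg D → IsWeightPair C → WeightGen C →
        (∀ Y, SmoothProj Y → ∀ m, (At C m Y ↔ RegStable D m Y)) →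
        (zero : ∀ Y : Sch ℚ, SmoothProj Y → topologicalKrullDim Y.left ≤ (0 : ℕ) → BijAll C Y) →
        (Iso D ↔ ∀ t ∈ L, BijAll C t.hyp) ∧
        (Iso D ↔ ∀ t ∈ L', At C (j - 1 + t.a) t.hyp) ∧
        (Iso D ↔ ∀ g ∈ G, BijAll C (g.hyp ℚ)) ∧
        (Iso D → ∀ t : Form ℚ, BijAll C t.hyp) ∧
        (∀ t : Form ℚ, t.Block 2 → BijAll C t.hyp) := by
  obtain ⟨L, L', G, hL, h⟩ := reg_finite.{w, 0, u} hS hn 0 j
  refine ⟨L, L', G, hL, fun ℓ _ D C hD hC hg bij zero => ?_⟩
  obtain ⟨h3, h4, h5, h6, h7⟩ := h ℚ_[ℓ] D C hD hC hg bij zero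
  exact ⟨h3, h4, h5 frac_rat, h6, h7⟩

end Pool.Agent.Results.MP_76188c_nt.FinitelyManyCubics
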