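import Pool.Agent.Q193.LT.Cyc

/-!
# `ℓ`-adic regulators and the cubic hypersurfaces `T(x, y, z) = 1`

Let `ℓ` be a prime. For a Chow motive `N` over the number field `k` let
`r_ℓ : H^i_M(N, ℚ(j))_hom ⊗ ℚ_ℓ → H^1_st(G_k, H^{i-1}(N̄, ℚ_ℓ(j)))` be the `ℓ`-adic regulator. Both sides
are additive functors of `N`, and for `N = h(X)` it is the map of question Q1. (Q1 says that the regulator
of `X` is injective with image `H^1_st`. That it takes values in `H^1_st` is known: motivic classes
extend to the complement of finitely many fibres of a model, and the regulators are potentially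
semistable at the places above `ℓ` by the comparison theorems, Nekovář, Nizioł.)

For a separated scheme `X` of finite type over `k` let `W(X)` be its weight complex (Gillet, Soulé), a
complex of Chow motives. For the indices `(i, j, c)` put
`A^{i,j,c}(X) = H^c(H^i_M(W(X), ℚ(j))_hom ⊗ ℚ_ℓ)`, `B^{i,j,c}(X) = H^c(H^1_st(G_k, H^{i-1}(W(X), ℚ_ℓ(j))))`.
The regulator induces maps `A^{i,j,c}(X) → B^{i,j,c}(X)`. For smooth projective `X` these are the
regulators of `X` if `c = 0`, and the groups for `c ≠ 0` are zero. `BijAll C X` says that the maps are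
isomorphisms for all `(i, j, c)`; for smooth projective `X` this is the statement of question Q1 for
`X`, the prime `ℓ` and all `i`, `j`.

**Theorem.** (1) The statement of Q1 for `ℓ` is true for all number fields `k`, all smooth projective
`X` over `k` and all `i`, `j` if and only if the maps `A^{i,j,c}(X_H) → B^{i,j,c}(X_H)` are isomorphisms
for the smooth affine cubic hypersurfaces `X_H : ∑_{(i, j, l) ∈ H} x_i y_j z_l = 1` over `ℚ` of all
finite sets `H` of triples.

(2) For all number fields `k` and all `d`, it is true for all smooth projective varieties of dimension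
at most `d` over `k` if and only if the maps are isomorphisms for the hypersurfaces `T(x, y, z) = 1` of
all trilinear forms `T` over `k` such that one of the three blocks of variables has at most `d + 2`
variables (the other two blocks are arbitrary).

(3) Unconditionally, the maps are isomorphisms for the hypersurfaces `T(x, y, z) = 1` over number fields
such that one of the three blocks of variables has at most two variables.
-/

set_option autoImplicit false

open CategoryTheory CategoryTheory.Limits AlgebraicGeometry Pool.Agent.Y116.UV Pool.Agent.Z125.UN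
  Pool.Agent.Q193.LT

universe w

namespace Pool.Agent.Results.MP_76188c_nt.HypergraphRegulators

/-- The indices `(i, j, c)`. -/
abbrev Idx : Type := ℤ × ℤ × ℤ

/-- The shift `(i, j, c) ↦ (i, j, c + 1)`. -/
def shiftC : Idx ≃ Idx := Equiv.prodCongr (Equiv.refl ℤ) shiftI

/-- The Tate twist `(i, j, c) ↦ (i + 2, j + 1, c)`. -/
def twist : Idx ≃ Idx := Equiv.prodCongr (Equiv.addRight 2) shiftN

/-- The regulators of the prime `ℓ` over all number fields `k`. -/
abbrev Regulators (ℓ : ℕ) [Fact ℓ.Prime] : Type _ :=
  ∀ (k : Type) [Field k] [NumberField k], PairData.{w} k Idx ℚ_[ℓ]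

variable {ℓ : ℕ} [Fact ℓ.Prime]

/-- The maps are isomorphisms for all smooth projective schemes of dimension at most `d` over `k`. -/
def Proj (C : Regulators.{w} ℓ) (k : Type) [Field k] [NumberField k] (d : ℕ) : Prop :=
  ∀ Y : Sch k, SmoothProj Y → topologicalKrullDim Y.left ≤ d → BijAll (C k) Y

/-- The maps are isomorphisms for all hypersurfaces `T = 1` over `k` with a block of at most `m`
variables. -/
def Forms (C : Regulators.{w} ℓ) (k : Type) [Field k] [NumberField k] (m : ℕ) : Prop :=
  ∀ (a b c : ℕ) (T : Fin a → Fin b → Fin c → k), (a ≤ m ∨ b ≤ m ∨ c ≤ m) → BijAll (C k) (hypS T)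

/-- The known properties of the regulators. `pair`: long exact sequences for closed-open decompositions,
affine bundles, products with `𝔾_m`. `gen`: smooth projective schemes generate, in each dimension.
`soule`: the case of the schemes of dimension zero, that is of number fields (Soulé, Borel).
`restrict`: a smooth projective scheme over `k` is a smooth projective scheme over `ℚ`, with the same
motivic cohomology and, by Shapiro's lemma, the same Galois cohomology. -/
structure IsRegulator (C : Regulators.{w} ℓ) : Prop where
  pair : ∀ (k : Type) [Field k] [NumberField k], IsPair (C k) shiftC twist shiftC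
  gen : ∀ (k : Type) [Field k] [NumberField k], WeightGen (C k)
  point : ∀ (k : Type) [Field k] [NumberField k], BijAll (C k) (aff k k)
  soule : ∀ (k : Type) [Field k] [NumberField k], Proj C k 0
  restrict : ∀ (k : Type) [Field k] [NumberField k] (Y : Sch k), SmoothProj Y →
    ∃ Y' : Sch ℚ, SmoothProj Y' ∧ (BijAll (C k) Y ↔ BijAll (C ℚ) Y')

/-- **`ℓ`-adic regulators and cubic hypersurfaces.** See the explanations above. -/
theorem result {C : Regulators.{w} ℓ} (hC : IsRegulator C) :
    ((∀ (k : Type) [Field k] [NumberField k] (Y : Sch k), SmoothProj Y → BijAll (C k) Y) ↔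
      ∀ (a b c : ℕ) (H : Finset (Fin a × Fin b × Fin c)), BijAll (C ℚ) (tripS ℚ H)) ∧
    (∀ (k : Type) [Field k] [NumberField k] (d : ℕ), Proj C k d ↔ Forms C k (d + 2)) ∧
    ∀ (k : Type) [Field k] [NumberField k], Forms C k 2 := by
  have key := wg_graph (hC.gen ℚ) (hC.pair ℚ) (hC.point ℚ) frac_rat
  refine ⟨⟨fun h => key.mp (h ℚ), fun h k _ _ Y hY => ?_⟩,
    fun k _ _ d => wg_dim (hC.gen k) (hC.pair k) (hC.point k) d,
    fun k _ _ => (wg_dim (hC.gen k) (hC.pair k) (hC.point k) 0).mp (hC.soule k)⟩
  obtain ⟨Y', hY', e⟩ := hC.restrict k Y hY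
  exact e.mpr (key.mpr h Y' hY')

end Pool.Agent.Results.MP_76188c_nt.HypergraphRegulators
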