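import Pool.Agent.Q49.WU.Pair

/-!
# `ℓ`-adic regulators, one `K`-group and one weight `j` at a time, and cubic hypersurfaces

Let `ℓ` be a prime, `k` a number field and `m ≥ 0`. For a Chow motive `N` over `k` and an integer `j` let
`A^j(N) = H^{2j-m}_M(N, ℚ(j))_hom ⊗ ℚ_ℓ`, a part of `K_m(N)^{(j)} ⊗ ℚ_ℓ`, and
`B^j(N) = H^1_st(G_k, H^{2j-m-1}(N̄, ℚ_ℓ(j)))`, two additive functors of `N`. The `ℓ`-adic regulator is a map
`A^j(N) → B^j(N)`, and for `N = h(X)` this is the map of question Q1 for `X`, `j` and `i = 2j - m`. (Q1 says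
that the regulator of `X` is injective with image `H^1_st`. That it takes values in `H^1_st` is known:
motivic classes extend to the complement of finitely many fibres of a model, and the regulators are
potentially semistable at the places above `ℓ` by the comparison theorems, Nekovář, Nizioł.)

For a separated scheme `X` of finite type over `k` let `W(X)` be its weight complex (Gillet, Soulé), a
complex of Chow motives, and put `A^{j,c}(X) = H^c(A^j(W(X)))`, `B^{j,c}(X) = H^c(B^j(W(X)))`. The regulator
induces maps `A^{j,c}(X) → B^{j,c}(X)`. For smooth projective `X` these are the regulators of `X` if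
`c = 0`, and the groups for `c ≠ 0` are zero. `Reg (C m) j X` says that the maps are isomorphisms for the
given `m` and `j` and all `c`.

For the hypothesis `small` (known): the groups for smooth projective `X` are zero for `j ≤ 0`, and for
`j = 1`, `m ≥ 2`; for `j = m = 1` the map is the isomorphism `𝒪(X)^× ⊗ ℚ_ℓ → H^1_st(G_k, H^0(X̄, ℚ_ℓ(1)))` of
Kummer theory. (The case `j = 1`, `m = 0` is the finiteness of the `ℓ`-primary parts of the
Tate-Shafarevich groups of the abelian varieties over `k`.)

**Theorem.** (1) Let `m ≥ 0` and `j` be integers. Question Q1 has a positive answer for this `j`, for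
`i = 2j - m` and for all smooth projective `X` over `k` if and only if the maps
`A^{j+a-1,c}(T = 1) → B^{j+a-1,c}(T = 1)`, for the same `m` and all `c`, are isomorphisms for the smooth
affine cubic hypersurfaces `T(x, y, z) = 1` of all trilinear forms `T` over `k` in `a` variables `x_p` and
any numbers of variables `y_q`, `z_r`.

(2) For `k = ℚ` the hypersurfaces `X_H : ∑_{(p, q, r) ∈ H} x_p y_q z_r = 1` of all finite sets `H` of triples
suffice. (A smooth projective variety over a number field is one over `ℚ`, with the same groups by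
Shapiro's lemma, so this is a statement for all number fields.)

(3) Unconditionally, for all trilinear forms `T` in `a` variables `x_p` the maps
`A^{j,c}(T = 1) → B^{j,c}(T = 1)` are isomorphisms for all `c`, if `j ≤ a - 1`, and if `m ≥ 1` and `j ≤ a`.
-/

set_option autoImplicit false

open CategoryTheory CategoryTheory.Limits AlgebraicGeometry Pool.Agent.Y116.UV Pool.Agent.Z125.UN
  Pool.Agent.Q193.LT Pool.Agent.Q49.WU

universe w

namespace Pool.Agent.Results.MP_76188c_nt.WeightByWeight

/-- The regulators of index `j` are isomorphisms. -/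
def Reg {ℓ : ℕ} [Fact ℓ.Prime] {k : Type} [Field k] (C : PairData.{w} k (ℤ × ℤ) ℚ_[ℓ]) (j : ℤ)
    (X : Sch k) : Prop :=
  BijAt C Prod.fst j X

/-- **`ℓ`-adic regulators, one `K`-group and one weight at a time, and cubic hypersurfaces.** See the
explanations above; `point` is the known case of `Spec k` (Soulé, Borel, and Kummer theory). -/
theorem result {ℓ : ℕ} [Fact ℓ.Prime] {k : Type} [Field k] [NumberField k]
    {C : ℕ → PairData.{w} k (ℤ × ℤ) ℚ_[ℓ]} (hC : ∀ m, IsWeightPair (C m))
    (hw : ∀ m, GenAt (C m) Prod.fst) (point : ∀ m, BijAll (C m) (aff k k))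
    (small : ∀ (m : ℕ) (j : ℤ), j ≤ 0 ∨ (1 ≤ m ∧ j ≤ 1) → ∀ Y : Sch k, SmoothProj Y →
      Reg (C m) j Y) :
    (∀ (m : ℕ) (j : ℤ), (∀ Y : Sch k, SmoothProj Y → Reg (C m) j Y) ↔
      ∀ (a b c : ℕ) (T : Fin a → Fin b → Fin c → k), Reg (C m) (j + (a - 1)) (hypS T)) ∧
    (Frac k → ∀ (m : ℕ) (j : ℤ), (∀ Y : Sch k, SmoothProj Y → Reg (C m) j Y) ↔
      ∀ (a b c : ℕ) (H : Finset (Fin a × Fin b × Fin c)),
        Reg (C m) (j + (a - 1)) (tripS k H)) ∧
    ∀ (m : ℕ) (j : ℤ) (a b c : ℕ) (T : Fin a → Fin b → Fin c → k),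
      j ≤ a - 1 ∨ (1 ≤ m ∧ j ≤ a) → Reg (C m) j (hypS T) := by
  have h1 := fun (m : ℕ) (j : ℤ) => sp_at_iff (hw m) (hC m) graded_weight (point m) j
  refine ⟨h1, fun hF m j => sp_at_graph (hw m) (hC m) graded_weight (point m) hF j, ?_⟩
  intro m j a b c T hj
  have h2 : j - (a - 1) ≤ 0 ∨ (1 ≤ m ∧ j - (a - 1) ≤ 1) := by omega
  have h3 := (h1 m (j - (a - 1))).mp (small m _ h2) a b c T
  rwa [sub_add_cancel] at h3

end Pool.Agent.Results.MP_76188c_nt.WeightByWeight
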